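import Pool.Agent.LibT85.Core

set_option autoImplicit false

/-! KOM-T F3: the batch theorem. -/

open Finset

namespace Pool.Agent.LibT85

open Pool.Agent.LibDB82

/-- `b^50 + 1 ≤ exp b` for large `b` -/
theorem pow50_le : ∃ b1 : ℕ, ∀ b : ℕ, b1 ≤ b → (b : ℝ) ^ 50 + 1 ≤ Real.exp b := by
  have h := (tendsto_natCast_atTop_atTop (R := ℝ)).eventually
    ((Real.tendsto_exp_div_pow_atTop 50).eventually_ge_atTop 2)
  obtain ⟨b1, hb1⟩ := Filter.eventually_atTop.1 h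
  refine ⟨max b1 1, fun b hb => ?_⟩
  have h1 := hb1 b (le_trans (le_max_left _ _) hb)
  have hb0 : (1 : ℝ) ≤ b := by
    have : 1 ≤ b := le_trans (le_max_right _ _) hb
    exact_mod_cast this
  have hp : (1 : ℝ) ≤ (b : ℝ) ^ 50 := one_le_pow₀ hb0
  rw [le_div_iff₀ (by positivity)] at h1
  linarith

/-- the constant -/
theorem const_bound (b : ℕ) (hb : 1000 ≤ b) :
    √2 * (2 * KB (2 * b) 1 + 7) ≤ 400000 * √(Real.log b) := by
  have hb0 : (1000 : ℝ) ≤ b := by exact_mod_cast hb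
  have hlb : 1 ≤ Real.log b := by
    rw [Real.le_log_iff_exp_le (by linarith)]
    have := Real.exp_one_lt_d9
    linarith
  have hl2 : Real.log 2 ≤ 0.6931471808 := Real.log_two_lt_d9.le
  have hl20 : 0 < Real.log 2 := Real.log_pos (by norm_num)
  have hlog : Real.log ((2 * b : ℕ) : ℝ) ≤ 2 * Real.log b := by
    push_cast
    rw [Real.log_mul (by norm_num) (by linarith)]
    linarith
  have hs : √(Real.log ((2 * b : ℕ) : ℝ)) ≤ √2 * √(Real.log b) := by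
    rw [← Real.sqrt_mul (by norm_num)]
    exact Real.sqrt_le_sqrt hlog
  have h2 : √2 ≤ 1.4143 := by
    rw [Real.sqrt_le_left (by norm_num)]
    norm_num
  have h20 : 0 ≤ √2 := Real.sqrt_nonneg 2
  have hS : 1 ≤ √(Real.log b) := by
    rw [Real.one_le_sqrt]; exact hlb
  have hs2 : √(Real.log ((2 * b : ℕ) : ℝ)) ≤ 1.4143 * √(Real.log b) :=
    hs.trans (mul_le_mul_of_nonneg_right h2 (Real.sqrt_nonneg _))
  have hs0 : 0 ≤ √(Real.log ((2 * b : ℕ) : ℝ)) := Real.sqrt_nonneg _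
  have hKB : KB (2 * b) 1 ≤ 700 + 58820 * √(Real.log b) := by
    unfold KB
    have e1 : (1 : ℝ) * Real.log (2 / 1) ≤ 0.6931471808 := by
      rw [one_mul, div_one]; exact hl2
    have e2 : 60000 * √(Real.log ((2 * b : ℕ) : ℝ)) * (1 * Real.log (2 / 1))
        ≤ 60000 * (1.4143 * √(Real.log b)) * 0.6931471808 := by
      apply mul_le_mul
      · exact mul_le_mul_of_nonneg_left hs2 (by norm_num)
      · exact e1
      · rw [one_mul, div_one]; exact hl20.le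
      · positivity
    nlinarith
  have hpos : 0 ≤ KB (2 * b) 1 := by
    unfold KB
    have : 0 ≤ (1 : ℝ) * Real.log (2 / 1) := by
      rw [one_mul, div_one]; exact hl20.le
    positivity
  calc √2 * (2 * KB (2 * b) 1 + 7)
      ≤ 1.4143 * (2 * KB (2 * b) 1 + 7) := mul_le_mul_of_nonneg_right h2 (by linarith)
    _ ≤ 1.4143 * (2 * (700 + 58820 * √(Real.log b)) + 7) := by
        apply mul_le_mul_of_nonneg_left _ (by norm_num); linarith
    _ ≤ 400000 * √(Real.log b) := by nlinarith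

universe u v w

/-- the batch theorem, all weights not zero -/
theorem batch_pos (b1 : ℕ) (hb1 : ∀ b : ℕ, b1 ≤ b → (b : ℝ) ^ 50 + 1 ≤ Real.exp b)
    (b : ℕ) (hb : 1000 ≤ b) (hbb : b1 ≤ b)
    (ι : Type u) (κ : Type v) (K : Type w) [Fintype ι] [Fintype κ] [Fintype K] [DecidableEq ι]
    (hι : (Fintype.card ι : ℝ) ≤ Real.exp b) (hκ : (Fintype.card κ : ℝ) ≤ Real.exp b)
    (hK : (Fintype.card K : ℝ) ≤ Real.exp b)
    (a : ι → κ → ℝ) (hcol : ∀ i, ∑ j, (a i j) ^ 2 ≤ 1)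
    (hop : ∀ v : κ → ℝ, ∑ i, (∑ j, v j * a i j) ^ 2 ≤ b * ∑ j, v j ^ 2)
    (x0 : ι → ℝ) (hx0 : ∀ i, |x0 i| ≤ 1)
    (ψ : K → κ → ℝ) (hψ : ∀ k, ∑ j, (ψ k j) ^ 2 ≤ b)
    (w : K → ℝ) (hw : ∀ k, 0 ≤ w k) (hpos : 0 < ∑ k, w k) :
    ∃ x : ι → ℝ, (∀ i, x i = 1 ∨ x i = -1) ∧
      (∀ j, |∑ i, (x i - x0 i) * a i j| ≤ 400000 * √(Real.log b)) ∧
      ∑ k, w k * Real.exp (∑ i, (x i - x0 i) * ∑ j, ψ k j * a i j)
        ≤ Real.exp (1 / b) * ∑ k, w k * Real.exp (400000 * ∑ j, (ψ k j) ^ 2) := by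
  have hb0 : (1000 : ℝ) ≤ b := by exact_mod_cast hb
  have hbp : (0 : ℝ) < b := by linarith
  set n : ℕ := ⌊Real.exp ((2 * b : ℕ) : ℝ)⌋₊ with hn
  have hexp : Real.exp b + Real.exp b ≤ Real.exp ((2 * b : ℕ) : ℝ) := by
    have h1 : Real.exp ((2 * b : ℕ) : ℝ) = Real.exp b * Real.exp b := by
      rw [← Real.exp_add]; congr 1; push_cast; ring
    rw [h1]
    have h2 : (2 : ℝ) ≤ Real.exp b := by
      have := Real.add_one_le_exp (b : ℝ)
      linarith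
    nlinarith [Real.exp_pos (b : ℝ)]
  have hcardι : Fintype.card ι ≤ n := by
    apply Nat.le_floor
    have := Real.exp_pos (b : ℝ)
    linarith
  have hcardK : Fintype.card K ≤ n := by
    apply Nat.le_floor
    have := Real.exp_pos (b : ℝ)
    linarith
  have hcardS : Fintype.card (κ ⊕ ι) ≤ n := by
    apply Nat.le_floor
    rw [Fintype.card_sum]
    push_cast at hexp ⊢
    linarith
  have hn1 : 1 ≤ n := by
    apply Nat.le_floor
    have := Real.add_one_le_exp ((2 * b : ℕ) : ℝ)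
    push_cast at this ⊢
    linarith
  have c1 : (2 * b) ^ 50 ≤ n := by
    have h1 := hb1 (2 * b) (by omega)
    apply Nat.le_floor
    push_cast at h1 ⊢
    linarith
  have c2 : (n : ℝ) ≤ Real.exp ((2 * b : ℕ) : ℝ) := Nat.floor_le (Real.exp_pos _).le
  have c3 : Fintype.card (κ ⊕ ι) ≤ n ^ 2 := by
    calc Fintype.card (κ ⊕ ι) ≤ n := hcardS
      _ ≤ n ^ 2 := by nlinarith
  have c4 : ∀ v : κ ⊕ ι → ℝ, ∑ i, (∑ j, v j * KT11.aug a i j) ^ 2
      ≤ ((2 * b : ℕ) : ℝ) * ∑ j, v j ^ 2 := by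
    intro v
    have h1 := KT11.aug_op a b hop (by linarith) v
    have h2 : 0 ≤ ∑ j, v j ^ 2 := Finset.sum_nonneg fun j _ => sq_nonneg _
    push_cast
    nlinarith
  have c5 : ∀ k, ∑ j, KT11.augF (ι := ι) (ψ k) j ^ 2 ≤ ((2 * b : ℕ) : ℝ) := by
    intro k
    rw [KT11.augF_norm]
    push_cast
    have := hψ k
    linarith
  obtain ⟨e, he, hrow, hexp2⟩ := core (KT11.aug a) (2 * b) n (by omega) c1 c2 hcardι c3 hcardK
    (KT11.aug_norm a hcol) (KT11.aug_gram a) c4 x0 hx0 (fun k => KT11.augF (ι := ι) (ψ k)) c5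
    w hw hpos
  refine ⟨e, he, fun j => ?_, ?_⟩
  · have h1 := hrow (Sum.inl j)
    have h2 : ∑ i, KT11.aug a i (Sum.inl j) * (e i - x0 i)
        = (∑ i, (e i - x0 i) * a i j) / √2 := by
      rw [Finset.sum_div]
      refine Finset.sum_congr rfl fun i _ => ?_
      simp only [KT11.aug]; ring
    rw [h2, abs_div, abs_of_pos (by positivity : (0 : ℝ) < √2), div_le_iff₀ (by positivity)] at h1
    have h3 := const_bound b hb
    calc |∑ i, (e i - x0 i) * a i j| ≤ (2 * KB (2 * b) 1 + 7) * √2 := h1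
      _ = √2 * (2 * KB (2 * b) 1 + 7) := by ring
      _ ≤ _ := h3
  · have h1 : ∀ k, ∑ i, (∑ j, KT11.augF (ψ k) j * KT11.aug a i j) * (e i - x0 i)
        = ∑ i, (e i - x0 i) * ∑ j, ψ k j * a i j := by
      intro k
      refine Finset.sum_congr rfl fun i _ => ?_
      rw [KT11.augF_apply, mul_comm]
    have h2 : ∀ k, ∑ j, KT11.augF (ι := ι) (ψ k) j ^ 2 = 2 * ∑ j, (ψ k j) ^ 2 := by
      intro k; rw [KT11.augF_norm]
    simp only [h1, h2] at hexp2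
    refine hexp2.trans ?_
    have h4 : ∑ k, w k * Real.exp (1950 * (2 * ∑ j, (ψ k j) ^ 2))
        ≤ ∑ k, w k * Real.exp (400000 * ∑ j, (ψ k j) ^ 2) := by
      refine Finset.sum_le_sum fun k _ => mul_le_mul_of_nonneg_left ?_ (hw k)
      apply Real.exp_le_exp.2
      have : 0 ≤ ∑ j, (ψ k j) ^ 2 := Finset.sum_nonneg fun j _ => sq_nonneg _
      linarith
    have h5 : Real.exp (1 / ((2 * b : ℕ) : ℝ)) ≤ Real.exp (1 / b) := by
      apply Real.exp_le_exp.2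
      push_cast
      apply one_div_le_one_div_of_le hbp
      linarith
    have h6 : 0 ≤ ∑ k, w k * Real.exp (1950 * (2 * ∑ j, (ψ k j) ^ 2)) :=
      Finset.sum_nonneg fun k _ => mul_nonneg (hw k) (Real.exp_pos _).le
    exact mul_le_mul h5 h4 h6 (Real.exp_pos _).le

/-- **Batch theorem.** `core` for the columns `(a_i, e_i)/√2` on `κ ⊕ ι`, `b' = 2b`, `n = ⌊exp b'⌋`, `ψ' = √2 (ψ, 0)`;
if all weights are `0` take `K = Unit`, `w = 1`, `ψ = 0`. -/
theorem batch : ∃ C : ℝ, 0 < C ∧ ∃ b0 : ℕ, 2 ≤ b0 ∧ ∀ b : ℕ, b0 ≤ b →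
    ∀ (ι : Type u) (κ : Type v) (K : Type w) [Fintype ι] [Fintype κ] [Fintype K]
      [DecidableEq ι],
      (Fintype.card ι : ℝ) ≤ Real.exp b → (Fintype.card κ : ℝ) ≤ Real.exp b →
      (Fintype.card K : ℝ) ≤ Real.exp b →
    ∀ a : ι → κ → ℝ, (∀ i, ∑ j, (a i j) ^ 2 ≤ 1) →
      (∀ v : κ → ℝ, ∑ i, (∑ j, v j * a i j) ^ 2 ≤ b * ∑ j, v j ^ 2) →
    ∀ x0 : ι → ℝ, (∀ i, |x0 i| ≤ 1) →
    ∀ ψ : K → κ → ℝ, (∀ k, ∑ j, (ψ k j) ^ 2 ≤ b) →
    ∀ w : K → ℝ, (∀ k, 0 ≤ w k) →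
    ∃ x : ι → ℝ, (∀ i, x i = 1 ∨ x i = -1) ∧
      (∀ j, |∑ i, (x i - x0 i) * a i j| ≤ C * √(Real.log b)) ∧
      ∑ k, w k * Real.exp (∑ i, (x i - x0 i) * ∑ j, ψ k j * a i j)
        ≤ Real.exp (1 / b) * ∑ k, w k * Real.exp (C * ∑ j, (ψ k j) ^ 2) := by
  obtain ⟨b1, hb1⟩ := pow50_le
  refine ⟨400000, by norm_num, max 1000 b1, le_trans (by norm_num) (le_max_left _ _), ?_⟩
  intro b hb ι κ K _ _ _ _ hι hκ hK a hcol hop x0 hx0 ψ hψ w hw
  have hb2 : 1000 ≤ b := le_trans (le_max_left _ _) hb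
  have hb3 : b1 ≤ b := le_trans (le_max_right _ _) hb
  rcases (Finset.sum_nonneg fun k _ => hw k : 0 ≤ ∑ k, w k).lt_or_eq with hpos | hzero
  · exact batch_pos b1 hb1 b hb2 hb3 ι κ K hι hκ hK a hcol hop x0 hx0 ψ hψ w hw hpos
  · have hw0 : ∀ k, w k = 0 := by
      intro k
      exact (Finset.sum_eq_zero_iff_of_nonneg fun k _ => hw k).1 hzero.symm k (Finset.mem_univ k)
    have hb0 : (1000 : ℝ) ≤ b := by exact_mod_cast hb2
    obtain ⟨x, hx, hrow, -⟩ := batch_pos b1 hb1 b hb2 hb3 ι κ PUnit.{w + 1} hι hκ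
      (by
        rw [Fintype.card_punit]
        have := Real.add_one_le_exp (b : ℝ)
        push_cast
        linarith)
      a hcol hop x0 hx0 (fun _ _ => 0) (by intro k; simp) (fun _ => 1)
      (by intro k; norm_num) (by simp)
    refine ⟨x, hx, hrow, ?_⟩
    simp [hw0]

end Pool.Agent.LibT85
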