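import Pool.Agent.LibT85.Stage

set_option autoImplicit false

/-! Module T: core theorem (standing assumptions, statement of stage 1). -/

open Finset Pool.Agent.LibDB82

namespace Pool.Agent.LibT85

open Pool.Agent.LibT57 (ncl)

variable {ι κ K : Type*} [Fintype ι] [Fintype κ] [Fintype K] [DecidableEq ι]

open Classical in
/-- core theorem -/
theorem core (a : ι → κ → ℝ) (b n : ℕ) (hb : 100 ≤ b) (hn : b ^ 50 ≤ n)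
    (hnb : (n : ℝ) ≤ Real.exp b) (hcard : Fintype.card ι ≤ n) (hκ : Fintype.card κ ≤ n ^ 2)
    (hK : Fintype.card K ≤ n)
    (hcol : ∀ i, ∑ j, (a i j) ^ 2 ≤ 1)
    (hG : ∀ (S : Finset ι) (c : ι → ℝ),
      (1 / 2) * ∑ i ∈ S, c i ^ 2 ≤ ∑ j, (∑ i ∈ S, c i * a i j) ^ 2)
    (hop : ∀ v : κ → ℝ, ∑ i, (∑ j, v j * a i j) ^ 2 ≤ b * ∑ j, v j ^ 2)
    (x0 : ι → ℝ) (hx0 : ∀ i, |x0 i| ≤ 1)
    (ψ : K → κ → ℝ) (hψ : ∀ k, ∑ j, ψ k j ^ 2 ≤ b)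
    (w : K → ℝ) (hw : ∀ k, 0 ≤ w k) (hpos : 0 < ∑ k, w k) :
    ∃ e : ι → ℝ, (∀ i, e i = 1 ∨ e i = -1) ∧
      (∀ j, |∑ i, a i j * (e i - x0 i)| ≤ 2 * KB b 1 + 7) ∧
      ∑ k, w k * Real.exp (∑ i, (∑ j, ψ k j * a i j) * (e i - x0 i))
        ≤ Real.exp (1 / b) * ∑ k, w k * Real.exp (1950 * ∑ j, ψ k j ^ 2) := by
  obtain ⟨x, U, h1, h2, h3, h4, h5, h6, h7, h8⟩ := stage1T a b n hb hn hnb hcard hκ hK hcol hop
    x0 hx0 ψ hψ (fun k => w k * Real.exp (654 * ∑ j, ψ k j ^ 2))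
    (fun k => mul_nonneg (hw k) (Real.exp_pos _).le)
  exact core_of a b n hb hn hnb hcard hκ hcol hG x0 ψ hψ w hw hpos x h1 U h2 h3 h4 h5 h6 h7 h8

end Pool.Agent.LibT85
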