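import Pool.Agent.LibDB82.Stage1
import Pool.Agent.LibT57.LemM
import Pool.Agent.LibT57.NearCount
import Pool.Agent.LibT11.AO

set_option autoImplicit false

/-! Module T, stage 2: products of the multipliers and rows. -/

open Finset Pool.Agent.LibDB82

namespace Pool.Agent.LibT85

open Pool.Agent.LibT57 (ncl)

variable {ι κ K : Type*} [Fintype ι] [Fintype κ] [Fintype K] [DecidableEq ι]

/-- the cluster relation: a common row with both entries `≥ 1/b^120`, or a scalar product `≥ 1/b^120` -/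
def R2 (a : ι → κ → ℝ) (b : ℕ) (i i' : ι) : Prop :=
  RelG a (1 / (b : ℝ) ^ 120) i i' ∨ 1 / (b : ℝ) ^ 120 ≤ |∑ j, a i j * a i' j|

open Classical in
/-- near variables of a functional -/
noncomputable def nearA (a : ι → κ → ℝ) (b : ℕ) (ψ : κ → ℝ) : Finset ι :=
  univ.filter (fun i => 1 / (b : ℝ) ^ 120 ≤ |∑ j, ψ j * a i j|)

theorem R2_symm (a : ι → κ → ℝ) (b : ℕ) (i i' : ι) (h : R2 a b i i') : R2 a b i' i := by
  rcases h with h | h
  · exact Or.inl (RelG_symm a _ _ _ h)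
  · right
    refine h.trans (le_of_eq ?_)
    congr 1
    exact Finset.sum_congr rfl fun j _ => mul_comm _ _

open Classical in
theorem cmps_sub (R : ι → ι → Prop) (U Q : Finset ι) (hQ : Q ∈ cmps R U) : Q ⊆ U := by
  obtain ⟨i0, _, rfl⟩ := (mem_cmps _ U Q).1 hQ
  intro i hi
  exact ((mem_cmp _ U i0 i).1 hi).1

open Classical in
/-- product of the multipliers of one functional over all the clusters -/
theorem mult_K (R : ι → ι → Prop) (hR : ∀ i i', R i i' → R i' i) (U A : Finset ι) (φ : ι → ℝ)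
    (g B β s : ℝ) (hB : 0 ≤ B) (hA : ∀ i, i ∉ A → |φ i| < g) (θ : Finset ι → κ → ℝ)
    (hθ : ∑ Q ∈ (cmps R U).filter (fun Q => ∃ i ∈ Q, i ∈ A), ∑ j, θ Q j ^ 2 ≤ 2 * s)
    (hm : ∑ i ∈ U, (if |φ i| < g then φ i ^ 2 else 0) ≤ β) :
    ∏ Q ∈ cmps R U, (if ∃ i ∈ Q, i ∈ A then Real.exp (327 * ∑ j, θ Q j ^ 2 + 4)
        else Real.exp (4 * B * ∑ i ∈ Q, φ i ^ 2))
      ≤ Real.exp (654 * s + 4 * (ncl R A U : ℝ) + 4 * B * β) := by
  rw [Finset.prod_ite, ← Real.exp_sum, ← Real.exp_sum, ← Real.exp_add]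
  apply Real.exp_le_exp.2
  have h1 : ∑ Q ∈ (cmps R U).filter (fun Q => ∃ i ∈ Q, i ∈ A), (327 * ∑ j, θ Q j ^ 2 + 4)
      ≤ 654 * s + 4 * (ncl R A U : ℝ) := by
    rw [Finset.sum_add_distrib, ← Finset.mul_sum, Finset.sum_const, nsmul_eq_mul]
    have h2 : ((cmps R U).filter (fun Q => ∃ i ∈ Q, i ∈ A)).card = ncl R A U := by
      unfold Pool.Agent.LibT57.ncl
      congr
    rw [h2]
    linarith
  have h2 : ∑ Q ∈ (cmps R U).filter (fun Q => ¬ ∃ i ∈ Q, i ∈ A), (4 * B * ∑ i ∈ Q, φ i ^ 2)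
      ≤ 4 * B * β := by
    rw [← Finset.mul_sum]
    refine mul_le_mul_of_nonneg_left ?_ (by positivity)
    calc ∑ Q ∈ (cmps R U).filter (fun Q => ¬ ∃ i ∈ Q, i ∈ A), ∑ i ∈ Q, φ i ^ 2
        = ∑ Q ∈ (cmps R U).filter (fun Q => ¬ ∃ i ∈ Q, i ∈ A), ∑ i ∈ Q,
            (if |φ i| < g then φ i ^ 2 else 0) := by
          refine Finset.sum_congr rfl fun Q hQ => Finset.sum_congr rfl fun i hi => ?_
          rw [if_pos (hA i (fun h => (Finset.mem_filter.1 hQ).2 ⟨i, hi, h⟩))]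
      _ ≤ ∑ Q ∈ cmps R U, ∑ i ∈ Q, (if |φ i| < g then φ i ^ 2 else 0) := by
          refine Finset.sum_le_sum_of_subset_of_nonneg (Finset.filter_subset _ _) ?_
          intro Q _ _
          refine Finset.sum_nonneg fun i _ => ?_
          split_ifs
          · positivity
          · exact le_rfl
      _ = ∑ i ∈ U, (if |φ i| < g then φ i ^ 2 else 0) := (cmps_sum R hR U _).symm
      _ ≤ β := hm
  linarith

open Classical in
/-- the part of row `j` in the clusters of `U` all of whose entries in row `j` are smaller than `g` -/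
noncomputable def rowf (a : ι → κ → ℝ) (g : ℝ) (R : ι → ι → Prop) (U : Finset ι) (j : κ)
    (i : ι) : ℝ := if ∀ i' ∈ cmp R U i, |a i' j| < g then a i j else 0

open Classical in
theorem rowf_sq (a : ι → κ → ℝ) (g : ℝ) (R : ι → ι → Prop) (U : Finset ι) (j : κ) (i : ι)
    (hi : i ∈ U) : rowf a g R U j i ^ 2 ≤ (if |a i j| < g then (a i j) ^ 2 else 0) := by
  unfold rowf
  by_cases h : ∀ i' ∈ cmp R U i, |a i' j| < g
  · rw [if_pos h, if_pos (h i (self_cmp R U i hi))]
  · rw [if_neg h]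
    split_ifs
    · rw [zero_pow (by norm_num)]
      exact sq_nonneg _
    · norm_num

open Classical in
theorem rowf_le (a : ι → κ → ℝ) (g : ℝ) (hg : 0 ≤ g) (R : ι → ι → Prop) (U : Finset ι) (j : κ)
    (i : ι) (hi : i ∈ U) : |rowf a g R U j i| ≤ g := by
  unfold rowf
  by_cases h : ∀ i' ∈ cmp R U i, |a i' j| < g
  · rw [if_pos h]
    exact (h i (self_cmp R U i hi)).le
  · rw [if_neg h, abs_zero]
    exact hg

open Classical in
/-- product of the multipliers of a row -/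
theorem mult_R (a : ι → κ → ℝ) (g : ℝ) (R : ι → ι → Prop) (hR : ∀ i i', R i i' → R i' i)
    (U : Finset ι) (j : κ) (s B β : ℝ) (hB : 0 ≤ B)
    (hm : ∑ i ∈ U, (if |a i j| < g then (a i j) ^ 2 else 0) ≤ β) :
    ∏ Q ∈ cmps R U, Real.exp (4 * B * ∑ i ∈ Q, (s * rowf a g R U j i) ^ 2)
      ≤ Real.exp (4 * B * s ^ 2 * β) := by
  rw [← Real.exp_sum]
  apply Real.exp_le_exp.2
  rw [← Finset.mul_sum, ← cmps_sum R hR U (fun i => (s * rowf a g R U j i) ^ 2)]
  have h1 : ∑ i ∈ U, (s * rowf a g R U j i) ^ 2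
      ≤ s ^ 2 * ∑ i ∈ U, (if |a i j| < g then (a i j) ^ 2 else 0) := by
    rw [Finset.mul_sum]
    refine Finset.sum_le_sum fun i hi => ?_
    rw [mul_pow]
    exact mul_le_mul_of_nonneg_left (rowf_sq a g R U j i hi) (sq_nonneg _)
  calc 4 * B * ∑ i ∈ U, (s * rowf a g R U j i) ^ 2
      ≤ 4 * B * (s ^ 2 * ∑ i ∈ U, (if |a i j| < g then (a i j) ^ 2 else 0)) :=
        mul_le_mul_of_nonneg_left h1 (by positivity)
    _ ≤ 4 * B * (s ^ 2 * β) := by gcongr
    _ = 4 * B * s ^ 2 * β := by ring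

open Classical in
/-- the coarse entries of a row lie in one cluster -/
theorem row_split (a : ι → κ → ℝ) (g : ℝ) (R : ι → ι → Prop) (hR : ∀ i i', R i i' → R i' i)
    (hRg : ∀ i i', RelG a g i i' → R i i')
    (U : Finset ι) (y : ι → ℝ) (M : ℝ) (hM : 0 ≤ M)
    (j : κ) (hQ : ∀ Q ∈ cmps R U, |∑ i ∈ Q, a i j * y i| ≤ M)
    (hf : |∑ i ∈ U, rowf a g R U j i * y i| ≤ 1) :
    |∑ i ∈ U, a i j * y i| ≤ M + 1 := by
  have hsplit : ∑ i ∈ U, a i j * y i
      = ∑ i ∈ U, (a i j - rowf a g R U j i) * y i + ∑ i ∈ U, rowf a g R U j i * y i := by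
    rw [← Finset.sum_add_distrib]
    refine Finset.sum_congr rfl fun i _ => ?_
    ring
  rw [hsplit]
  refine (abs_add_le _ _).trans ?_
  suffices h : |∑ i ∈ U, (a i j - rowf a g R U j i) * y i| ≤ M by linarith
  by_cases hex : ∃ i0 ∈ U, g ≤ |a i0 j|
  · obtain ⟨i0, hi0, hg0⟩ := hex
    have hkey : ∀ i ∈ U, (a i j - rowf a g R U j i) * y i
        = if i ∈ cmp R U i0 then a i j * y i else 0 := by
      intro i hi
      by_cases hmem : i ∈ cmp R U i0
      · have h1 : ¬ ∀ i' ∈ cmp R U i, |a i' j| < g := by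
          intro h
          rw [cmp_eq R hR U i0 i hmem] at h
          exact absurd (h i0 (self_cmp R U i0 hi0)) (not_lt.2 hg0)
        rw [if_pos hmem]
        unfold rowf
        rw [if_neg h1, sub_zero]
      · have h1 : ∀ i' ∈ cmp R U i, |a i' j| < g := by
          intro i' hi'
          by_contra hcon
          have hcon' : g ≤ |a i' j| := not_lt.1 hcon
          apply hmem
          have h2 : i' ∈ U := ((mem_cmp R U i i').1 hi').1
          have h3 : i' ∈ cmp R U i0 :=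
            adj_cmp R U i0 i0 i' (self_cmp R U i0 hi0) h2 (hRg _ _ ⟨j, hg0, hcon'⟩)
          have h4 : cmp R U i' = cmp R U i := cmp_eq R hR U i i' hi'
          have h5 : cmp R U i' = cmp R U i0 := cmp_eq R hR U i0 i' h3
          rw [← h5, h4]
          exact self_cmp R U i hi
        rw [if_neg hmem]
        unfold rowf
        rw [if_pos h1, sub_self, zero_mul]
    rw [Finset.sum_congr rfl hkey, ← Finset.sum_filter]
    have h2 : U.filter (fun i => i ∈ cmp R U i0) = cmp R U i0 := by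
      ext i
      rw [Finset.mem_filter]
      exact ⟨fun h => h.2, fun h => ⟨((mem_cmp R U i0 i).1 h).1, h⟩⟩
    rw [h2]
    exact hQ _ ((mem_cmps _ U _).2 ⟨i0, hi0, rfl⟩)
  · have h1 : ∑ i ∈ U, (a i j - rowf a g R U j i) * y i = 0 := by
      refine Finset.sum_eq_zero fun i hi => ?_
      unfold rowf
      rw [if_pos, sub_self, zero_mul]
      intro i' hi'
      by_contra hcon
      exact hex ⟨i', ((mem_cmp R U i i').1 hi').1, not_lt.1 hcon⟩
    rw [h1, abs_zero]
    exact hM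

end Pool.Agent.LibT85
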