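import Pool.Agent.LibT85.G1

set_option autoImplicit false

/-! Module T, stage 2. -/

open Finset Pool.Agent.LibDB82

namespace Pool.Agent.LibT85

open Pool.Agent.LibT57 (ncl cluster_step glue)

variable {ι κ K : Type*} [Fintype ι] [Fintype κ] [Fintype K] [DecidableEq ι]

theorem num_g2 (b : ℕ) (hb : 100 ≤ b) :
    1 / (b : ℝ) ^ 120 ≤ 1 / (2 * (b : ℝ) ^ 83) ∧
    10 * (b : ℝ) * (1 / (b : ℝ) ^ 120) ≤ 1 / (2 * (b : ℝ) ^ 83) ∧
    4 * (b : ℝ) ^ 83 * (10 * b) ^ 2 * (1 / (b : ℝ) ^ 90) ≤ 1 ∧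
    4 * (b : ℝ) ^ 83 * (1 / (b : ℝ) ^ 90) ≤ 1 / (b : ℝ) ^ 2 ∧
    2 * (1 / (b : ℝ) ^ 120) * (b : ℝ) ^ 83 * b ≤ 1 := by
  have hb' : (100 : ℝ) ≤ b := by exact_mod_cast hb
  have hb0 : (0 : ℝ) < b := by linarith
  have hb1 : (1 : ℝ) ≤ b := by linarith
  have hp : ∀ k : ℕ, 1 ≤ k → (100 : ℝ) ≤ (b : ℝ) ^ k := by
    intro k hk
    calc (100 : ℝ) ≤ b := hb'
      _ = (b : ℝ) ^ 1 := (pow_one _).symm
      _ ≤ (b : ℝ) ^ k := pow_le_pow_right₀ hb1 hk
  refine ⟨?_, ?_, ?_, ?_, ?_⟩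
  · apply one_div_le_one_div_of_le (by positivity)
    calc 2 * (b : ℝ) ^ 83 ≤ (b : ℝ) ^ 37 * (b : ℝ) ^ 83 := by
          have := hp 37 (by norm_num)
          gcongr
          linarith
      _ = (b : ℝ) ^ 120 := by rw [← pow_add]
  · have h1 : 10 * (b : ℝ) * (1 / (b : ℝ) ^ 120) = 10 / (b : ℝ) ^ 119 := by
      field_simp
    rw [h1, div_le_div_iff₀ (by positivity) (by positivity), one_mul]
    calc 10 * (2 * (b : ℝ) ^ 83) = 20 * (b : ℝ) ^ 83 := by ring
      _ ≤ (b : ℝ) ^ 36 * (b : ℝ) ^ 83 := by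
          have := hp 36 (by norm_num)
          gcongr
          linarith
      _ = (b : ℝ) ^ 119 := by rw [← pow_add]
  · have h1 : 4 * (b : ℝ) ^ 83 * (10 * b) ^ 2 * (1 / (b : ℝ) ^ 90) = 400 / (b : ℝ) ^ 5 := by
      field_simp
      ring
    rw [h1, div_le_one (by positivity)]
    calc (400 : ℝ) ≤ 100 * 100 := by norm_num
      _ ≤ (b : ℝ) ^ 2 * (b : ℝ) ^ 3 := by
          have h2 := hp 2 (by norm_num)
          have h3 := hp 3 (by norm_num)
          gcongr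
      _ = (b : ℝ) ^ 5 := by rw [← pow_add]
  · have h1 : 4 * (b : ℝ) ^ 83 * (1 / (b : ℝ) ^ 90) = 4 / (b : ℝ) ^ 7 := by
      field_simp
    rw [h1, div_le_div_iff₀ (by positivity) (by positivity), one_mul]
    calc 4 * (b : ℝ) ^ 2 ≤ (b : ℝ) ^ 5 * (b : ℝ) ^ 2 := by
          have := hp 5 (by norm_num)
          gcongr
          linarith
      _ = (b : ℝ) ^ 7 := by rw [← pow_add]
  · have h1 : 2 * (1 / (b : ℝ) ^ 120) * (b : ℝ) ^ 83 * b = 2 / (b : ℝ) ^ 36 := by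
      field_simp
    rw [h1, div_le_one (by positivity)]
    have := hp 36 (by norm_num)
    linarith

theorem num_exp (b : ℕ) (hb : 100 ≤ b) :
    2 * Real.exp (2 * b) * Real.exp (-(3 * b)) * Real.exp 1 ≤ 1 / (b : ℝ) ^ 2 := by
  have hb' : (100 : ℝ) ≤ b := by exact_mod_cast hb
  have hb0 : (0 : ℝ) < b := by linarith
  have h1 : 2 * Real.exp (2 * b) * Real.exp (-(3 * b)) * Real.exp 1
      = 2 * Real.exp (-(b - 1)) := by
    rw [mul_assoc, mul_assoc, ← Real.exp_add, ← Real.exp_add]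
    congr 2
    ring
  rw [h1]
  have h2 : (b : ℝ) ^ 3 / 48 ≤ Real.exp (b - 1) := by
    have h3 : (b - 1 : ℝ) ^ 3 / 6 ≤ Real.exp (b - 1) := by
      have h4 := Real.pow_div_factorial_le_exp (b - 1 : ℝ) (by linarith) 3
      simpa [Nat.factorial] using h4
    refine le_trans ?_ h3
    have h5 : (b : ℝ) / 2 ≤ b - 1 := by linarith
    have h6 : ((b : ℝ) / 2) ^ 3 ≤ (b - 1 : ℝ) ^ 3 := pow_le_pow_left₀ (by positivity) h5 3
    have h7 : (b : ℝ) ^ 3 / 48 = ((b : ℝ) / 2) ^ 3 / 6 := by ring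
    rw [h7]
    linarith
  rw [Real.exp_neg, le_div_iff₀ (by positivity)]
  have h8 : 2 * (Real.exp (b - 1))⁻¹ * (b : ℝ) ^ 2 = 2 * (b : ℝ) ^ 2 / Real.exp (b - 1) := by
    field_simp
  rw [h8, div_le_one (Real.exp_pos _)]
  refine le_trans ?_ h2
  rw [le_div_iff₀ (by norm_num)]
  nlinarith [sq_nonneg (b : ℝ)]

theorem KB_nn (b : ℕ) : 0 ≤ KB b 1 := by
  unfold KB
  have h1 : 0 ≤ Real.log (2 / 1) := Real.log_nonneg (by norm_num)
  positivity

open Classical in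
/-- stage 2: signing of the undecided variables -/
theorem stage2 (a : ι → κ → ℝ) (b n : ℕ) (hb : 100 ≤ b) (hn : b ^ 50 ≤ n)
    (hnb : (n : ℝ) ≤ Real.exp b) (hcard : Fintype.card ι ≤ n) (hκ : Fintype.card κ ≤ n ^ 2)
    (hcol : ∀ i, ∑ j, (a i j) ^ 2 ≤ 1)
    (hG : ∀ (S : Finset ι) (c : ι → ℝ),
      (1 / 2) * ∑ i ∈ S, c i ^ 2 ≤ ∑ j, (∑ i ∈ S, c i * a i j) ^ 2)
    (ψ : K → κ → ℝ) (x : ι → ℝ) (hx : ∀ i, |x i| ≤ 1) (U : Finset ι)
    (hmr : ∀ j, ∑ i ∈ U, (if |a i j| < 1 / (b : ℝ) ^ 120 then (a i j) ^ 2 else 0)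
      ≤ 1 / (b : ℝ) ^ 90)
    (hmk : ∀ k, ∑ i ∈ U, (if |∑ j, ψ k j * a i j| < 1 / (b : ℝ) ^ 120
      then (∑ j, ψ k j * a i j) ^ 2 else 0) ≤ 1 / (b : ℝ) ^ 90)
    (hcl : ∀ Q ∈ cmps (R2 a b) U, Q.card ≤ b ^ 83)
    (hncl : ∀ k, ncl (R2 a b) (nearA a b (ψ k)) U ≤ b)
    (W : K → ℝ) (hW : ∀ k, 0 ≤ W k) (hpos : 0 < ∑ k, W k) :
    ∃ e : ι → ℝ, (∀ i ∈ U, |e i| = 1) ∧
      (∀ j, |∑ i ∈ U, a i j * (e i - x i)| ≤ KB b 1 + 6) ∧
      ∑ k, W k * Real.exp (∑ i ∈ U, (∑ j, ψ k j * a i j) * (e i - x i))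
        ≤ (1 + 1 / (b : ℝ) ^ 2) * ∑ k, W k *
          Real.exp (654 * ∑ j, ψ k j ^ 2 + 4 * (ncl (R2 a b) (nearA a b (ψ k)) U : ℝ)
            + 1 / (b : ℝ) ^ 2) := by
  have hb4 : 4 ≤ b := by omega
  have hb' : (100 : ℝ) ≤ b := by exact_mod_cast hb
  have hb0 : (0 : ℝ) < b := by linarith
  obtain ⟨m1, m2, m3, m4, m5⟩ := num_g2 b hb
  set g : ℝ := 1 / (b : ℝ) ^ 120 with hg
  have hg0 : 0 < g := by positivity
  have hRs := R2_symm a b
  have hRg : ∀ i i', RelG a g i i' → R2 a b i i' := fun i i' h => Or.inl h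
  -- near projections
  have hproj : ∀ k, ∃ θ : Finset ι → κ → ℝ,
      (∀ Q ∈ (cmps (R2 a b) U).filter (fun Q => ∃ i ∈ Q, i ∈ nearA a b (ψ k)), ∀ i ∈ Q,
        ∑ j, θ Q j * a i j = ∑ j, ψ k j * a i j) ∧
      ∑ Q ∈ (cmps (R2 a b) U).filter (fun Q => ∃ i ∈ Q, i ∈ nearA a b (ψ k)), ∑ j, θ Q j ^ 2
        ≤ 2 * ∑ j, ψ k j ^ 2 := by
    intro k
    refine KT11.almost_orthogonal a hG _ ((b : ℝ) ^ 83) g ?_ hg0.le (by positivity) ?_ ?_ (ψ k)
    · intro Q hQ
      exact_mod_cast hcl Q (Finset.mem_filter.1 hQ).1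
    · intro Q hQ Q' hQ' hne i hi i' hi'
      by_contra hcon
      push Not at hcon
      have h1 : R2 a b i i' := Or.inr hcon.le
      obtain ⟨i0, _, rfl⟩ := (mem_cmps _ U Q).1 (Finset.mem_filter.1 hQ).1
      obtain ⟨i1, _, rfl⟩ := (mem_cmps _ U Q').1 (Finset.mem_filter.1 hQ').1
      have h2 : i' ∈ U := ((mem_cmp _ U i1 i').1 hi').1
      have h3 : i' ∈ cmp (R2 a b) U i0 := adj_cmp _ U i0 i i' hi h2 h1
      apply hne
      rw [← cmp_eq _ hRs U i0 i' h3, ← cmp_eq _ hRs U i1 i' hi']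
    · have h1 : (((cmps (R2 a b) U).filter
          (fun Q => ∃ i ∈ Q, i ∈ nearA a b (ψ k))).card : ℝ) ≤ b := by
        have h2 : ((cmps (R2 a b) U).filter (fun Q => ∃ i ∈ Q, i ∈ nearA a b (ψ k))).card
            = ncl (R2 a b) (nearA a b (ψ k)) U := by
          unfold Pool.Agent.LibT57.ncl
          congr
        rw [h2]
        exact_mod_cast hncl k
      calc 2 * g * (b : ℝ) ^ 83 * _ ≤ 2 * g * (b : ℝ) ^ 83 * b := by gcongr
        _ ≤ 1 := m5
  choose θ hθ1 hθ2 using hproj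
  -- the family of functionals
  set φ : K ⊕ (κ × Bool) → ι → ℝ := fun l i => match l with
    | Sum.inl k => ∑ j, ψ k j * a i j
    | Sum.inr (j, s) => (if s then 10 * (b : ℝ) else -(10 * b)) * rowf a g (R2 a b) U j i with hφ
  set nr : Finset ι → K ⊕ (κ × Bool) → Prop := fun Q l => match l with
    | Sum.inl k => ∃ i ∈ Q, i ∈ nearA a b (ψ k)
    | Sum.inr _ => False with hnr
  set θ' : Finset ι → K ⊕ (κ × Bool) → κ → ℝ := fun Q l => match l with
    | Sum.inl k => θ k Q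
    | Sum.inr _ => 0 with hθ'
  set m : K ⊕ (κ × Bool) → Finset ι → ℝ := fun l Q =>
    if nr Q l then Real.exp (327 * ∑ j, θ' Q l j ^ 2 + 4)
      else Real.exp (4 * (b : ℝ) ^ 83 * ∑ i ∈ Q, φ l i ^ 2) with hm
  set Om : ℝ := ∑ k, W k * Real.exp (654 * ∑ j, ψ k j ^ 2
    + 4 * (ncl (R2 a b) (nearA a b (ψ k)) U : ℝ) + 1 / (b : ℝ) ^ 2) with hOm
  have hOm0 : 0 < Om := by
    refine lt_of_lt_of_le hpos ?_
    refine Finset.sum_le_sum fun k _ => ?_
    have h1 : 1 ≤ Real.exp (654 * ∑ j, ψ k j ^ 2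
        + 4 * (ncl (R2 a b) (nearA a b (ψ k)) U : ℝ) + 1 / (b : ℝ) ^ 2) := by
      apply Real.one_le_exp
      have : 0 ≤ ∑ j, ψ k j ^ 2 := Finset.sum_nonneg fun j _ => sq_nonneg _
      positivity
    calc W k = W k * 1 := (mul_one _).symm
      _ ≤ _ := mul_le_mul_of_nonneg_left h1 (hW k)
  set wr : ℝ := Om * Real.exp (-(3 * b)) with hwr
  have hwr0 : 0 < wr := by positivity
  set w : K ⊕ (κ × Bool) → ℝ := fun l => match l with
    | Sum.inl k => W k
    | Sum.inr _ => wr with hw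
  have hw0 : ∀ l, 0 ≤ w l := by
    rintro (k | ⟨j, s⟩)
    · exact hW k
    · exact hwr0.le
  -- the entries
  have hrows : ∀ i, (univ.filter (fun j => a i j ≠ 0)).card ≤ n ^ 2 := fun i =>
    (Finset.card_filter_le _ _).trans (by rw [Finset.card_univ]; exact hκ)
  have hent : ∀ i j, |a i j| ≤ 1 := by
    intro i j
    have h1 : (a i j) ^ 2 ≤ ∑ j, (a i j) ^ 2 :=
      Finset.single_le_sum (f := fun j => (a i j) ^ 2) (fun j _ => sq_nonneg _)
        (Finset.mem_univ j)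
    have h2 : (a i j) ^ 2 ≤ 1 := h1.trans (hcol i)
    rw [← sq_abs] at h2
    nlinarith [abs_nonneg (a i j)]
  obtain ⟨e, he1, he2⟩ := glue (cmps (R2 a b) U) (cmps_disj _ hRs U) x φ m
    (by
      intro l Q _
      simp only [hm]
      split_ifs <;> positivity)
    (fun Q e => (∀ i ∈ Q, |e i| = 1) ∧ ∀ j, |∑ i ∈ Q, a i j * (e i - x i)| ≤ KB b 1 + 5)
    (by
      rintro Q _ e e' hee ⟨h1, h2⟩
      refine ⟨fun i hi => by rw [← hee i hi]; exact h1 i hi, fun j => ?_⟩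
      have h3 : ∑ i ∈ Q, a i j * (e' i - x i) = ∑ i ∈ Q, a i j * (e i - x i) :=
        Finset.sum_congr rfl fun i hi => by rw [hee i hi]
      rw [h3]
      exact h2 j)
    (by
      intro Q hQ W' hW'
      obtain ⟨e, h1, h2⟩ := cluster_step a b n hb4 hn hnb hcard 1 one_pos le_rfl hcol hrows hent
        x hx Q (hcl Q hQ) φ (nr Q) (θ' Q)
        (by
          rintro (k | ⟨j, s⟩) hk i hi
          · exact (hθ1 k Q (Finset.mem_filter.2 ⟨hQ, hk⟩) i hi).symm
          · exact hk.elim)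
        (by
          rintro (k | ⟨j, s⟩) hk i hi
          · refine le_trans ?_ m1
            by_contra hcon
            push Not at hcon
            exact hk ⟨i, hi, Finset.mem_filter.2 ⟨Finset.mem_univ _, hcon.le⟩⟩
          · refine le_trans ?_ m2
            have h3 := rowf_le a g hg0.le (R2 a b) U j i (cmps_sub _ U Q hQ hi)
            show |(if s then 10 * (b : ℝ) else -(10 * b)) * rowf a g (R2 a b) U j i| ≤ _
            rw [abs_mul]
            have h4 : |if s = true then 10 * (b : ℝ) else -(10 * b)| = 10 * b := by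
              split_ifs
              · rw [abs_of_pos (by positivity)]
              · rw [abs_neg, abs_of_pos (by positivity)]
            rw [h4]
            gcongr)
        W' hW'
      refine ⟨e, h1, h2.trans (le_of_eq ?_)⟩
      refine Finset.sum_congr rfl fun l _ => ?_
      congr 1)
    w hw0
  -- bound of the total potential
  have hprodK : ∀ k, ∏ Q ∈ cmps (R2 a b) U, m (Sum.inl k) Q
      ≤ Real.exp (654 * ∑ j, ψ k j ^ 2 + 4 * (ncl (R2 a b) (nearA a b (ψ k)) U : ℝ)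
        + 1 / (b : ℝ) ^ 2) := by
    intro k
    have h1 := mult_K (R2 a b) hRs U (nearA a b (ψ k)) (fun i => ∑ j, ψ k j * a i j) g
      ((b : ℝ) ^ 83) (1 / (b : ℝ) ^ 90) (∑ j, ψ k j ^ 2) (by positivity)
      (by
        intro i hi
        by_contra hcon
        push Not at hcon
        exact hi (Finset.mem_filter.2 ⟨Finset.mem_univ _, hcon⟩))
      (θ k) (hθ2 k) (hmk k)
    refine le_trans (le_of_eq ?_) (h1.trans ?_)
    · refine Finset.prod_congr rfl fun Q _ => ?_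
      by_cases hnear : ∃ i ∈ Q, i ∈ nearA a b (ψ k)
      · have h3 : nr Q (Sum.inl k) := hnear
        simp only [hm]
        rw [if_pos h3, if_pos hnear]
      · have h3 : ¬ nr Q (Sum.inl k) := hnear
        simp only [hm]
        rw [if_neg h3, if_neg hnear]
    · apply Real.exp_le_exp.2
      linarith
  have hprodR : ∀ p : κ × Bool, ∏ Q ∈ cmps (R2 a b) U, m (Sum.inr p) Q ≤ Real.exp 1 := by
    rintro ⟨j, s⟩
    have h1 := mult_R a g (R2 a b) hRs U j (if s then 10 * (b : ℝ) else -(10 * b))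
      ((b : ℝ) ^ 83) (1 / (b : ℝ) ^ 90) (by positivity) (hmr j)
    have h2 : (if s then 10 * (b : ℝ) else -(10 * b)) ^ 2 = (10 * b) ^ 2 := by
      split_ifs
      · rfl
      · ring
    rw [h2] at h1
    refine le_trans (le_of_eq ?_) (h1.trans (Real.exp_le_exp.2 m3))
    refine Finset.prod_congr rfl fun Q _ => ?_
    simp only [hm, hnr, if_false]
    rfl
  have htot : ∑ l, w l * ∏ Q ∈ cmps (R2 a b) U, m l Q ≤ (1 + 1 / (b : ℝ) ^ 2) * Om := by
    rw [Fintype.sum_sum_type]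
    have h1 : ∑ k, w (Sum.inl k) * ∏ Q ∈ cmps (R2 a b) U, m (Sum.inl k) Q ≤ Om :=
      Finset.sum_le_sum fun k _ => mul_le_mul_of_nonneg_left (hprodK k) (hW k)
    have h2 : ∑ p : κ × Bool, w (Sum.inr p) * ∏ Q ∈ cmps (R2 a b) U, m (Sum.inr p) Q
        ≤ Om * (1 / (b : ℝ) ^ 2) := by
      calc ∑ p : κ × Bool, w (Sum.inr p) * ∏ Q ∈ cmps (R2 a b) U, m (Sum.inr p) Q
          ≤ ∑ _p : κ × Bool, wr * Real.exp 1 :=
            Finset.sum_le_sum fun p _ => mul_le_mul_of_nonneg_left (hprodR p) hwr0.le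
        _ = (Fintype.card κ : ℝ) * 2 * (wr * Real.exp 1) := by
            rw [Finset.sum_const, nsmul_eq_mul, Finset.card_univ, Fintype.card_prod,
              Fintype.card_bool]
            push_cast
            ring
        _ ≤ Real.exp (2 * b) * 2 * (wr * Real.exp 1) := by
            have h3 : (Fintype.card κ : ℝ) ≤ Real.exp (2 * b) := by
              calc (Fintype.card κ : ℝ) ≤ ((n ^ 2 : ℕ) : ℝ) := by exact_mod_cast hκ
                _ = (n : ℝ) ^ 2 := by push_cast; rfl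
                _ ≤ (Real.exp b) ^ 2 := pow_le_pow_left₀ (Nat.cast_nonneg _) hnb 2
                _ = Real.exp (2 * b) := by rw [← Real.exp_nat_mul]; norm_num
            gcongr
        _ = Om * (2 * Real.exp (2 * b) * Real.exp (-(3 * b)) * Real.exp 1) := by
            rw [hwr]; ring
        _ ≤ Om * (1 / (b : ℝ) ^ 2) := mul_le_mul_of_nonneg_left (num_exp b hb) hOm0.le
    linarith
  have hall := he2.trans htot
  rw [Fintype.sum_sum_type] at hall
  have hsumU : ∀ f : ι → ℝ, ∑ Q ∈ cmps (R2 a b) U, ∑ i ∈ Q, f i = ∑ i ∈ U, f i := fun f =>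
    (cmps_sum _ hRs U f).symm
  have hnnK : 0 ≤ ∑ k, w (Sum.inl k) * Real.exp (∑ Q ∈ cmps (R2 a b) U, ∑ i ∈ Q,
      φ (Sum.inl k) i * (e i - x i)) :=
    Finset.sum_nonneg fun k _ => mul_nonneg (hW k) (Real.exp_pos _).le
  have hnnR : 0 ≤ ∑ p : κ × Bool, w (Sum.inr p) * Real.exp (∑ Q ∈ cmps (R2 a b) U, ∑ i ∈ Q,
      φ (Sum.inr p) i * (e i - x i)) :=
    Finset.sum_nonneg fun p _ => mul_nonneg hwr0.le (Real.exp_pos _).le
  refine ⟨e, ?_, ?_, ?_⟩
  · intro i hi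
    exact (he1 (cmp (R2 a b) U i) ((mem_cmps _ U _).2 ⟨i, hi, rfl⟩)).1 i (self_cmp _ U i hi)
  · intro j
    have hKB := KB_nn b
    have hsingle : ∀ s : Bool, Real.exp ((if s then 10 * (b : ℝ) else -(10 * b)) *
        ∑ i ∈ U, rowf a g (R2 a b) U j i * (e i - x i)) ≤ Real.exp (10 * b) := by
      intro s
      have h1 : w (Sum.inr (j, s)) * Real.exp (∑ Q ∈ cmps (R2 a b) U, ∑ i ∈ Q,
          φ (Sum.inr (j, s)) i * (e i - x i)) ≤ (1 + 1 / (b : ℝ) ^ 2) * Om := by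
        have h2 := Finset.single_le_sum (f := fun p : κ × Bool => w (Sum.inr p) *
          Real.exp (∑ Q ∈ cmps (R2 a b) U, ∑ i ∈ Q, φ (Sum.inr p) i * (e i - x i)))
          (fun p _ => mul_nonneg hwr0.le (Real.exp_pos _).le) (Finset.mem_univ (j, s))
        linarith
      have h2 : ∑ Q ∈ cmps (R2 a b) U, ∑ i ∈ Q, φ (Sum.inr (j, s)) i * (e i - x i)
          = (if s then 10 * (b : ℝ) else -(10 * b)) *
            ∑ i ∈ U, rowf a g (R2 a b) U j i * (e i - x i) := by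
        rw [hsumU (fun i => φ (Sum.inr (j, s)) i * (e i - x i)), Finset.mul_sum]
        refine Finset.sum_congr rfl fun i _ => ?_
        simp only [hφ]
        ring
      rw [h2] at h1
      have h3 : w (Sum.inr (j, s)) = Om * Real.exp (-(3 * b)) := rfl
      rw [h3] at h1
      have h4 : 1 + 1 / (b : ℝ) ^ 2 ≤ 2 := by
        have : 1 / (b : ℝ) ^ 2 ≤ 1 := by
          rw [div_le_one (by positivity)]
          nlinarith
        linarith
      set E := Real.exp ((if s then 10 * (b : ℝ) else -(10 * b)) *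
        ∑ i ∈ U, rowf a g (R2 a b) U j i * (e i - x i)) with hE
      have h5 : Om * (Real.exp (-(3 * b)) * E) ≤ Om * 2 := by
        calc Om * (Real.exp (-(3 * b)) * E) = Om * Real.exp (-(3 * b)) * E := by ring
          _ ≤ (1 + 1 / (b : ℝ) ^ 2) * Om := h1
          _ ≤ 2 * Om := by gcongr
          _ = Om * 2 := by ring
      have h6 : Real.exp (-(3 * b)) * E ≤ 2 := le_of_mul_le_mul_left h5 hOm0
      have h7 : E ≤ 2 * Real.exp (3 * b) := by
        rw [Real.exp_neg, inv_mul_le_iff₀ (Real.exp_pos _)] at h6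
        linarith
      refine h7.trans ?_
      calc 2 * Real.exp (3 * b) ≤ Real.exp 1 * Real.exp (3 * b) := by
            gcongr
            have := Real.add_one_le_exp (1 : ℝ)
            linarith
        _ = Real.exp (1 + 3 * b) := (Real.exp_add _ _).symm
        _ ≤ Real.exp (10 * b) := Real.exp_le_exp.2 (by linarith)
    have hF : |∑ i ∈ U, rowf a g (R2 a b) U j i * (e i - x i)| ≤ 1 := by
      have h1 := Real.exp_le_exp.1 (hsingle true)
      have h2 := Real.exp_le_exp.1 (hsingle false)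
      simp only [if_true, if_false, Bool.false_eq_true] at h1 h2
      rw [abs_le]
      constructor <;> nlinarith
    have h1 := row_split a g (R2 a b) hRs hRg U (fun i => e i - x i) (KB b 1 + 5)
      (by linarith) j (fun Q hQ => (he1 Q hQ).2 j) hF
    linarith
  · have h1 : ∑ k, W k * Real.exp (∑ i ∈ U, (∑ j, ψ k j * a i j) * (e i - x i))
        = ∑ k, w (Sum.inl k) * Real.exp (∑ Q ∈ cmps (R2 a b) U, ∑ i ∈ Q,
          φ (Sum.inl k) i * (e i - x i)) := by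
      refine Finset.sum_congr rfl fun k _ => ?_
      rw [hsumU (fun i => φ (Sum.inl k) i * (e i - x i))]
    rw [h1]
    linarith

end Pool.Agent.LibT85
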