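import Pool.Agent.LibT85.G2

set_option autoImplicit false

/-! Module T: from the outcome of stage 1 to the signing. -/

open Finset Pool.Agent.LibDB82

namespace Pool.Agent.LibT85

open Pool.Agent.LibT57 (ncl ip_le)

variable {ι κ K : Type*} [Fintype ι] [Fintype κ] [Fintype K] [DecidableEq ι]

theorem num_fac (b : ℕ) (hb : 100 ≤ b) :
    Real.exp (1 / (b : ℝ) ^ 2) * ((1 + 1 / (b : ℝ) ^ 2) * (Real.exp (1 / (b : ℝ) ^ 2) *
      (1 + 1 / (b : ℝ) ^ 2))) ≤ Real.exp (1 / b) := by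
  have hb' : (100 : ℝ) ≤ b := by exact_mod_cast hb
  have hb0 : (0 : ℝ) < b := by linarith
  have h1 : 1 + 1 / (b : ℝ) ^ 2 ≤ Real.exp (1 / (b : ℝ) ^ 2) := by
    have := Real.add_one_le_exp (1 / (b : ℝ) ^ 2)
    linarith
  calc _ ≤ Real.exp (1 / (b : ℝ) ^ 2) * (Real.exp (1 / (b : ℝ) ^ 2) *
        (Real.exp (1 / (b : ℝ) ^ 2) * Real.exp (1 / (b : ℝ) ^ 2))) := by gcongr
    _ = Real.exp (4 * (1 / (b : ℝ) ^ 2)) := by
        rw [← Real.exp_add, ← Real.exp_add, ← Real.exp_add]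
        congr 1
        ring
    _ ≤ Real.exp (1 / b) := by
        apply Real.exp_le_exp.2
        rw [mul_one_div, div_le_div_iff₀ (by positivity) hb0]
        nlinarith

open Classical in
/-- from stage 1 to the final signing -/
theorem core_of (a : ι → κ → ℝ) (b n : ℕ) (hb : 100 ≤ b) (hn : b ^ 50 ≤ n)
    (hnb : (n : ℝ) ≤ Real.exp b) (hcard : Fintype.card ι ≤ n) (hκ : Fintype.card κ ≤ n ^ 2)
    (hcol : ∀ i, ∑ j, (a i j) ^ 2 ≤ 1)
    (hG : ∀ (S : Finset ι) (c : ι → ℝ),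
      (1 / 2) * ∑ i ∈ S, c i ^ 2 ≤ ∑ j, (∑ i ∈ S, c i * a i j) ^ 2)
    (x0 : ι → ℝ) (ψ : K → κ → ℝ) (hψ : ∀ k, ∑ j, ψ k j ^ 2 ≤ b)
    (w : K → ℝ) (hw : ∀ k, 0 ≤ w k) (hpos : 0 < ∑ k, w k)
    (x : ι → ℝ) (hx : ∀ i, |x i| ≤ 1) (U : Finset ι)
    (hU : ∀ i, i ∉ U → 1 - 1 / (n : ℝ) ^ 2 ≤ |x i|)
    (hrow : ∀ j, |∑ i, a i j * (x i - x0 i)| ≤ KB b 1)
    (hmr : ∀ j, ∑ i ∈ U, (if |a i j| < 1 / (b : ℝ) ^ 120 then (a i j) ^ 2 else 0)
      ≤ 1 / (b : ℝ) ^ 90)
    (hmk : ∀ k, ∑ i ∈ U, (if |∑ j, ψ k j * a i j| < 1 / (b : ℝ) ^ 120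
      then (∑ j, ψ k j * a i j) ^ 2 else 0) ≤ 1 / (b : ℝ) ^ 90)
    (hcl : ∀ Q ∈ cmps (R2 a b) U, Q.card ≤ b ^ 83)
    (hncl : ∀ k, ncl (R2 a b) (nearA a b (ψ k)) U ≤ b)
    (hpot : ∑ k, (w k * Real.exp (654 * ∑ j, ψ k j ^ 2)) *
        Real.exp (∑ i, (∑ j, ψ k j * a i j) * (x i - x0 i)
          + 4 * (ncl (R2 a b) (nearA a b (ψ k)) U : ℝ))
      ≤ (1 + 1 / (b : ℝ) ^ 2) * ∑ k, (w k * Real.exp (654 * ∑ j, ψ k j ^ 2)) *
        Real.exp (1296 * ∑ j, ψ k j ^ 2)) :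
    ∃ e : ι → ℝ, (∀ i, e i = 1 ∨ e i = -1) ∧
      (∀ j, |∑ i, a i j * (e i - x0 i)| ≤ 2 * KB b 1 + 7) ∧
      ∑ k, w k * Real.exp (∑ i, (∑ j, ψ k j * a i j) * (e i - x0 i))
        ≤ Real.exp (1 / b) * ∑ k, w k * Real.exp (1950 * ∑ j, ψ k j ^ 2) := by
  have hb' : (100 : ℝ) ≤ b := by exact_mod_cast hb
  have hb0 : (0 : ℝ) < b := by linarith
  have hb1 : (1 : ℝ) ≤ b := by linarith
  have hn1 : 1 ≤ n := le_trans (Nat.one_le_pow _ _ (by omega)) hn
  have hn0 : (0 : ℝ) < n := by exact_mod_cast hn1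
  set W : K → ℝ := fun k => w k * Real.exp (∑ i, (∑ j, ψ k j * a i j) * (x i - x0 i)) with hW
  have hW0 : ∀ k, 0 ≤ W k := fun k => mul_nonneg (hw k) (Real.exp_pos _).le
  have hWpos : 0 < ∑ k, W k := by
    by_contra hcon
    have h1 : ∑ k, W k = 0 := le_antisymm (not_lt.1 hcon) (Finset.sum_nonneg fun k _ => hW0 k)
    have h2 := (Finset.sum_eq_zero_iff_of_nonneg fun k _ => hW0 k).1 h1
    have h3 : ∑ k, w k = 0 := Finset.sum_eq_zero fun k hk => by
      have h4 := h2 k hk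
      simp only [hW] at h4
      exact (mul_eq_zero.1 h4).resolve_right (Real.exp_pos _).ne'
    rw [h3] at hpos
    exact lt_irrefl _ hpos
  obtain ⟨e, he1, he2, he3⟩ := stage2 a b n hb hn hnb hcard hκ hcol hG ψ x hx U hmr hmk hcl hncl
    W hW0 hWpos
  set sg : ι → ℝ := fun i => if 0 ≤ x i then 1 else -1 with hsg
  have hsgx : ∀ i, i ∉ U → |sg i - x i| ≤ 1 / (n : ℝ) ^ 2 := by
    intro i hi
    have h2 := hU i hi
    have h3 := hx i
    simp only [hsg]
    split_ifs with h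
    · rw [abs_of_nonneg h] at h2 h3
      rw [abs_of_nonneg (by linarith)]
      linarith
    · rw [abs_of_neg (not_le.1 h)] at h2 h3
      rw [abs_of_nonpos (by linarith)]
      linarith
  set E : ι → ℝ := fun i => if i ∈ U then e i else sg i with hE
  -- splitting of a functional
  have hsplit : ∀ f : ι → ℝ, ∑ i, f i * (E i - x0 i)
      = ∑ i, f i * (x i - x0 i) + ∑ i ∈ univ \ U, f i * (sg i - x i)
        + ∑ i ∈ U, f i * (e i - x i) := by
    intro f
    have h1 : ∑ i, f i * (E i - x0 i) - ∑ i, f i * (x i - x0 i)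
        = ∑ i, f i * (E i - x i) := by
      rw [← Finset.sum_sub_distrib]
      refine Finset.sum_congr rfl fun i _ => ?_
      ring
    have h2 := Finset.sum_sdiff (Finset.subset_univ U) (f := fun i => f i * (E i - x i))
    have h3 : ∑ i ∈ univ \ U, f i * (E i - x i) = ∑ i ∈ univ \ U, f i * (sg i - x i) := by
      refine Finset.sum_congr rfl fun i hi => ?_
      simp only [hE]
      rw [if_neg (Finset.mem_sdiff.1 hi).2]
    have h4 : ∑ i ∈ U, f i * (E i - x i) = ∑ i ∈ U, f i * (e i - x i) := by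
      refine Finset.sum_congr rfl fun i hi => ?_
      simp only [hE]
      rw [if_pos hi]
    rw [h3, h4] at h2
    linarith
  have hout : ∀ (f : ι → ℝ) (M : ℝ), 0 ≤ M → (∀ i, |f i| ≤ M) →
      |∑ i ∈ univ \ U, f i * (sg i - x i)| ≤ M / n := by
    intro f M hM hf
    calc |∑ i ∈ univ \ U, f i * (sg i - x i)|
        ≤ ∑ i ∈ univ \ U, |f i * (sg i - x i)| := Finset.abs_sum_le_sum_abs _ _
      _ ≤ ∑ _i ∈ univ \ U, M * (1 / (n : ℝ) ^ 2) := by
          refine Finset.sum_le_sum fun i hi => ?_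
          rw [abs_mul]
          exact mul_le_mul (hf i) (hsgx i (Finset.mem_sdiff.1 hi).2) (abs_nonneg _) hM
      _ = ((univ \ U).card : ℝ) * (M * (1 / (n : ℝ) ^ 2)) := by
          rw [Finset.sum_const, nsmul_eq_mul]
      _ ≤ (n : ℝ) * (M * (1 / (n : ℝ) ^ 2)) := by
          gcongr
          exact (Finset.card_le_univ _).trans hcard
      _ = M / n := by field_simp
  refine ⟨E, ?_, ?_, ?_⟩
  · intro i
    simp only [hE]
    by_cases hi : i ∈ U
    · rw [if_pos hi]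
      exact eq_or_eq_neg_of_abs_eq (he1 i hi)
    · rw [if_neg hi]
      simp only [hsg]
      split_ifs
      · exact Or.inl rfl
      · exact Or.inr rfl
  · intro j
    have hent : ∀ i, |a i j| ≤ 1 := by
      intro i
      have h1 : (a i j) ^ 2 ≤ ∑ j, (a i j) ^ 2 :=
        Finset.single_le_sum (f := fun j => (a i j) ^ 2) (fun j _ => sq_nonneg _)
          (Finset.mem_univ j)
      have h2 : (a i j) ^ 2 ≤ 1 := h1.trans (hcol i)
      rw [← sq_abs] at h2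
      nlinarith [abs_nonneg (a i j)]
    rw [hsplit (fun i => a i j)]
    have h1 := hrow j
    have h2 := hout (fun i => a i j) 1 zero_le_one hent
    have h3 := he2 j
    have h4 : 1 / (n : ℝ) ≤ 1 := by
      rw [div_le_one hn0]
      exact_mod_cast hn1
    rw [abs_le] at h1 h2 h3 ⊢
    constructor <;> linarith [h1.1, h1.2, h2.1, h2.2, h3.1, h3.2]
  · have hterm : ∀ k, w k * Real.exp (∑ i, (∑ j, ψ k j * a i j) * (E i - x0 i))
        ≤ Real.exp (1 / (b : ℝ) ^ 2) * (W k * Real.exp (∑ i ∈ U, (∑ j, ψ k j * a i j) *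
          (e i - x i))) := by
      intro k
      rw [hsplit (fun i => ∑ j, ψ k j * a i j)]
      have h1 : ∀ i, |∑ j, ψ k j * a i j| ≤ b := by
        intro i
        have h2 := ip_le (ψ k) (a i) (hcol i)
        have h3 := hψ k
        linarith
      have h2 := hout (fun i => ∑ j, ψ k j * a i j) b hb0.le h1
      have h3 : (b : ℝ) / n ≤ 1 / (b : ℝ) ^ 2 := by
        rw [div_le_div_iff₀ hn0 (by positivity)]
        have h4 : (b : ℝ) ^ 50 ≤ n := by exact_mod_cast hn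
        calc (b : ℝ) * (b : ℝ) ^ 2 = (b : ℝ) ^ 3 := by ring
          _ ≤ (b : ℝ) ^ 50 := pow_le_pow_right₀ hb1 (by norm_num)
          _ ≤ 1 * n := by rw [one_mul]; exact h4
      have h4 : ∑ i ∈ univ \ U, (∑ j, ψ k j * a i j) * (sg i - x i) ≤ 1 / (b : ℝ) ^ 2 :=
        (le_abs_self _).trans (h2.trans h3)
      rw [Real.exp_add, Real.exp_add]
      have h5 := Real.exp_le_exp.2 h4
      simp only [hW]
      calc w k * (Real.exp (∑ i, (∑ j, ψ k j * a i j) * (x i - x0 i)) *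
            Real.exp (∑ i ∈ univ \ U, (∑ j, ψ k j * a i j) * (sg i - x i)) *
            Real.exp (∑ i ∈ U, (∑ j, ψ k j * a i j) * (e i - x i)))
          ≤ w k * (Real.exp (∑ i, (∑ j, ψ k j * a i j) * (x i - x0 i)) *
            Real.exp (1 / (b : ℝ) ^ 2) *
            Real.exp (∑ i ∈ U, (∑ j, ψ k j * a i j) * (e i - x i))) := by
            have := hw k
            gcongr
        _ = _ := by ring
    calc ∑ k, w k * Real.exp (∑ i, (∑ j, ψ k j * a i j) * (E i - x0 i))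
        ≤ ∑ k, Real.exp (1 / (b : ℝ) ^ 2) * (W k * Real.exp (∑ i ∈ U,
            (∑ j, ψ k j * a i j) * (e i - x i))) := Finset.sum_le_sum fun k _ => hterm k
      _ = Real.exp (1 / (b : ℝ) ^ 2) * ∑ k, W k * Real.exp (∑ i ∈ U,
            (∑ j, ψ k j * a i j) * (e i - x i)) := by rw [Finset.mul_sum]
      _ ≤ Real.exp (1 / (b : ℝ) ^ 2) * ((1 + 1 / (b : ℝ) ^ 2) * ∑ k, W k *
            Real.exp (654 * ∑ j, ψ k j ^ 2 + 4 * (ncl (R2 a b) (nearA a b (ψ k)) U : ℝ)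
              + 1 / (b : ℝ) ^ 2)) := by gcongr
      _ = Real.exp (1 / (b : ℝ) ^ 2) * ((1 + 1 / (b : ℝ) ^ 2) * (Real.exp (1 / (b : ℝ) ^ 2) *
            ∑ k, (w k * Real.exp (654 * ∑ j, ψ k j ^ 2)) *
              Real.exp (∑ i, (∑ j, ψ k j * a i j) * (x i - x0 i)
              + 4 * (ncl (R2 a b) (nearA a b (ψ k)) U : ℝ)))) := by
          congr 2
          rw [Finset.mul_sum]
          refine Finset.sum_congr rfl fun k _ => ?_
          simp only [hW]
          rw [Real.exp_add, Real.exp_add, Real.exp_add]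
          ring
      _ ≤ Real.exp (1 / (b : ℝ) ^ 2) * ((1 + 1 / (b : ℝ) ^ 2) * (Real.exp (1 / (b : ℝ) ^ 2) *
            ((1 + 1 / (b : ℝ) ^ 2) * ∑ k, (w k * Real.exp (654 * ∑ j, ψ k j ^ 2)) *
              Real.exp (1296 * ∑ j, ψ k j ^ 2)))) := by gcongr
      _ = (Real.exp (1 / (b : ℝ) ^ 2) * ((1 + 1 / (b : ℝ) ^ 2) * (Real.exp (1 / (b : ℝ) ^ 2) *
            (1 + 1 / (b : ℝ) ^ 2)))) * ∑ k, w k * Real.exp (1950 * ∑ j, ψ k j ^ 2) := by
          have h6 : ∑ k, (w k * Real.exp (654 * ∑ j, ψ k j ^ 2)) *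
              Real.exp (1296 * ∑ j, ψ k j ^ 2)
              = ∑ k, w k * Real.exp (1950 * ∑ j, ψ k j ^ 2) := by
            refine Finset.sum_congr rfl fun k _ => ?_
            rw [mul_assoc, ← Real.exp_add]
            congr 2
            ring
          rw [h6]
          ring
      _ ≤ _ := by
          apply mul_le_mul_of_nonneg_right (num_fac b hb)
          exact Finset.sum_nonneg fun k _ => mul_nonneg (hw k) (Real.exp_pos _).le

end Pool.Agent.LibT85
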