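import Pool.Agent.LibT85.G3
import Pool.Agent.LibT57.Stage1T

set_option autoImplicit false

/-! Module T: stage 1 in the form used by the core theorem. -/

open Finset Pool.Agent.LibDB82

namespace Pool.Agent.LibT85

open Pool.Agent.LibT57 (ncl)

variable {ι κ K : Type*} [Fintype ι] [Fintype κ] [Fintype K] [DecidableEq ι]

theorem card_bound (b n : ℕ) (hb : 100 ≤ b) (hnb : (n : ℝ) ≤ Real.exp b) (s t : ℕ)
    (hs : s ≤ n) (ht : t ≤ n ^ 2) : ((s + t : ℕ) : ℝ) ≤ Real.exp (4 * b) := by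
  have hb' : (100 : ℝ) ≤ b := by exact_mod_cast hb
  have h1 : (s : ℝ) ≤ Real.exp b := le_trans (by exact_mod_cast hs) hnb
  have h2 : (t : ℝ) ≤ Real.exp (2 * b) := by
    calc (t : ℝ) ≤ (n : ℝ) ^ 2 := by exact_mod_cast ht
      _ ≤ (Real.exp b) ^ 2 := pow_le_pow_left₀ (by positivity) hnb 2
      _ = Real.exp (2 * b) := by rw [← Real.exp_nat_mul]; norm_num
  have h3 : Real.exp b ≤ Real.exp (2 * b) := Real.exp_le_exp.2 (by linarith)
  have h4 : (2 : ℝ) ≤ Real.exp (2 * b) := by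
    linarith [Real.add_one_le_exp (2 * (b : ℝ))]
  have h5 : Real.exp (4 * (b : ℝ)) = Real.exp (2 * b) * Real.exp (2 * b) := by
    rw [← Real.exp_add]
    congr 1
    ring
  rw [h5]
  push_cast
  nlinarith [Real.exp_pos (2 * (b : ℝ))]

open Classical in
/-- STAGE 1: one run from `x0`. -/
theorem stage1T (a : ι → κ → ℝ) (b n : ℕ) (hb : 100 ≤ b) (hn : b ^ 50 ≤ n)
    (hnb : (n : ℝ) ≤ Real.exp b) (hcard : Fintype.card ι ≤ n) (hκ : Fintype.card κ ≤ n ^ 2)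
    (hK : Fintype.card K ≤ n)
    (hcol : ∀ i, ∑ j, (a i j) ^ 2 ≤ 1)
    (hop : ∀ v : κ → ℝ, ∑ i, (∑ j, v j * a i j) ^ 2 ≤ b * ∑ j, v j ^ 2)
    (x0 : ι → ℝ) (hx0 : ∀ i, |x0 i| ≤ 1)
    (ψ : K → κ → ℝ) (hψ : ∀ k, ∑ j, ψ k j ^ 2 ≤ b)
    (w : K → ℝ) (hw : ∀ k, 0 ≤ w k) :
    ∃ (x : ι → ℝ) (U : Finset ι), (∀ i, |x i| ≤ 1) ∧
      (∀ i, i ∉ U → 1 - 1 / (n : ℝ) ^ 2 ≤ |x i|) ∧
      (∀ j, |∑ i, a i j * (x i - x0 i)| ≤ KB b 1) ∧
      (∀ j, ∑ i ∈ U, (if |a i j| < 1 / (b : ℝ) ^ 120 then (a i j) ^ 2 else 0)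
        ≤ 1 / (b : ℝ) ^ 90) ∧
      (∀ k, ∑ i ∈ U, (if |∑ j, ψ k j * a i j| < 1 / (b : ℝ) ^ 120
        then (∑ j, ψ k j * a i j) ^ 2 else 0) ≤ 1 / (b : ℝ) ^ 90) ∧
      (∀ Q ∈ cmps (R2 a b) U, Q.card ≤ b ^ 83) ∧
      (∀ k, ncl (R2 a b) (nearA a b (ψ k)) U ≤ b) ∧
      ∑ k, w k * Real.exp (∑ i, (∑ j, ψ k j * a i j) * (x i - x0 i)
          + 4 * (ncl (R2 a b) (nearA a b (ψ k)) U : ℝ))
        ≤ (1 + 1 / (b : ℝ) ^ 2) * ∑ k, w k * Real.exp (1296 * ∑ j, ψ k j ^ 2) := by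
  have hb' : (100 : ℝ) ≤ b := by exact_mod_cast hb
  -- the family with the coordinate functionals added
  have hsingle : ∀ (j : κ) (i : ι), ∑ j', (Pi.single j (1 : ℝ) : κ → ℝ) j' * a i j' = a i j := by
    intro j i
    rw [Finset.sum_eq_single j]
    · rw [Pi.single_eq_same, one_mul]
    · intro j' _ hj'
      rw [Pi.single_eq_of_ne hj', zero_mul]
    · intro h
      exact absurd (Finset.mem_univ _) h
  have hsingle2 : ∀ j : κ, ∑ j', ((Pi.single j (1 : ℝ) : κ → ℝ) j') ^ 2 = 1 := by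
    intro j
    rw [Finset.sum_eq_single j]
    · rw [Pi.single_eq_same, one_pow]
    · intro j' _ hj'
      rw [Pi.single_eq_of_ne hj']
      norm_num
    · intro h
      exact absurd (Finset.mem_univ _) h
  obtain ⟨x, U, h1, h2, h3, h4, h5, h6, h7⟩ := Pool.Agent.LibT57.stage1T a b n hb hn hnb hcard hκ
    hcol hop x0 hx0 (K := K ⊕ κ) (by
      rw [Fintype.card_sum]
      exact card_bound b n hb hnb _ _ hK hκ)
    (Sum.elim ψ (fun j => Pi.single j 1)) (by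
      rintro (k | j)
      · exact hψ k
      · simp only [Sum.elim_inr]
        rw [hsingle2 j]
        linarith)
    (Sum.elim w (fun _ => 0)) (by
      rintro (k | j)
      · exact hw k
      · exact le_rfl)
  refine ⟨x, U, h1, h2, h3, ?_, fun k => h4 (Sum.inl k), ?_, fun k => h6 (Sum.inl k), ?_⟩
  · intro j
    have h8 := h4 (Sum.inr j)
    simp only [Sum.elim_inr, hsingle] at h8
    exact h8
  · intro Q hQ
    obtain ⟨i0, hi0, rfl⟩ := (mem_cmps _ U Q).1 hQ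
    refine h5 _ (fun i hi => ((mem_cmp _ U i0 i).1 hi).1)
      ⟨i0, self_cmp _ U i0 hi0, fun i hi => conn_cmp _ U i0 hi0 i hi⟩
  · rw [Fintype.sum_sum_type, Fintype.sum_sum_type] at h7
    simp only [Sum.elim_inl, Sum.elim_inr, zero_mul, Finset.sum_const_zero, add_zero] at h7
    refine le_trans (le_of_eq ?_) h7
    refine Finset.sum_congr rfl fun k _ => ?_
    rw [Real.exp_add]
    have h8 : ∑ i, (∑ j, ψ k j * a i j) * (x i - x0 i)
        = ∑ j, ψ k j * ∑ i, a i j * (x i - x0 i) := by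
      calc ∑ i, (∑ j, ψ k j * a i j) * (x i - x0 i)
          = ∑ i, ∑ j, ψ k j * (a i j * (x i - x0 i)) := by
            refine Finset.sum_congr rfl fun i _ => ?_
            rw [Finset.sum_mul]
            exact Finset.sum_congr rfl fun j _ => by ring
        _ = ∑ j, ∑ i, ψ k j * (a i j * (x i - x0 i)) := Finset.sum_comm
        _ = _ := Finset.sum_congr rfl fun j _ => by rw [Finset.mul_sum]
    rw [h8]
    rfl

end Pool.Agent.LibT85
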